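import Pool.Agent.Q196.FL.Nuclear

/-!
# Multi-Hilbert free locally convex spaces are nuclear

For every Tychonoff space `X`: if the free locally convex space `L(X)` is multi-Hilbert, then it is
nuclear.  So the answer to Q1 is no.

Outline.  Let `j₁ : L(X) → H₁` be a continuous operator into a Hilbert space.  `H₁` is a quotient of
`ℓ₁(J)`, `J` the unit ball of `H₁`, and by the Bartle-Graves theorem the quotient map `q` has a
continuous right inverse `s`.  The continuous map `x ↦ s (j₁ x)`, `X → ℓ₁(J)`, extends to an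
operator `Ψ : L(X) → ℓ₁(J)` with `q ∘ Ψ = j₁`.  If `L(X)` is multi-Hilbert, then `Ψ` factors
through an operator `U : H₂ → ℓ₁(J)` from a Hilbert space, `Ψ = U ∘ j₂`, and `q ∘ U : H₂ → H₁` is a
Hilbert-Schmidt operator by the little Grothendieck theorem.  Two such steps give a nuclear
operator.
-/

namespace Pool.Agent.Results.MP_7eb7a8_an.MultiHilbertIsNuclear

open Topology

universe u

/-- `δ : X → E` makes `E` the free (Hausdorff) locally convex space over `X`: `δ` is continuous, and
each continuous map of `X` to a Hausdorff locally convex space `F` has exactly one extension to a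
continuous linear map `E → F`. -/
def IsFreeLCS {X : Type u} [TopologicalSpace X] {E : Type u} [AddCommGroup E] [Module ℝ E]
    [TopologicalSpace E] (δ : X → E) : Prop :=
  Continuous δ ∧ ∀ (F : Type u) [AddCommGroup F] [Module ℝ F] [TopologicalSpace F]
    [IsTopologicalAddGroup F] [ContinuousSMul ℝ F] [LocallyConvexSpace ℝ F] [T2Space F]
    (f : X → F), Continuous f → ∃! T : E →L[ℝ] F, ∀ x, T (δ x) = f x

/-- A seminorm `q` is Hilbertian: `q x = √(b x x)` for a positive semidefinite symmetric bilinear
form `b`. -/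
def IsHilbertian {E : Type u} [AddCommGroup E] [Module ℝ E] (q : Seminorm ℝ E) : Prop :=
  ∃ b : E →ₗ[ℝ] E →ₗ[ℝ] ℝ, ((∀ x y, b x y = b y x) ∧ ∀ x, 0 ≤ b x x) ∧
    ∀ x, q x = Real.sqrt (b x x)

/-- `E` is multi-Hilbert: its topology is generated by a family of Hilbertian seminorms. -/
def MultiHilbert (E : Type u) [AddCommGroup E] [Module ℝ E] [TopologicalSpace E] : Prop :=
  ∃ (ι : Type u) (p : SeminormFamily ℝ E ι), (∀ i, IsHilbertian (p i)) ∧ WithSeminorms p

/-- `E` is nuclear: for every continuous seminorm `r` there is a continuous seminorm `q ≥ r` such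
that the canonical map from the normed space `E_q` to the completion `B` of `E_r` is a nuclear
operator.  Here `j : E → B`, `‖j x‖ = r x`, dense range, is the canonical map to the completion, and
nuclearity says `j = ∑ f_k ⊗ y_k` with linear functionals `f_k` on `E`, `|f_k| ≤ c_k q`, and `y_k`
in `B` such that `∑ c_k ‖y_k‖ < ∞`. -/
def IsNuclearSpace (E : Type u) [AddCommGroup E] [Module ℝ E] [TopologicalSpace E] : Prop :=
  ∀ r : Seminorm ℝ E, Continuous r → ∃ q : Seminorm ℝ E, Continuous q ∧ r ≤ q ∧
    ∃ (B : Type u) (_ : NormedAddCommGroup B) (_ : NormedSpace ℝ B) (_ : CompleteSpace B)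
      (j : E →ₗ[ℝ] B) (f : ℕ → E →ₗ[ℝ] ℝ) (c : ℕ → ℝ) (y : ℕ → B),
      (∀ x, ‖j x‖ = r x) ∧ DenseRange j ∧ (∀ k x, |f k x| ≤ c k * q x) ∧
      Summable (fun k => c k * ‖y k‖) ∧ ∀ x, HasSum (fun k => f k x • y k) (j x)

/-- For every Tychonoff space `X` with free locally convex space `E = L(X)`: if `L(X)` is
multi-Hilbert, then `L(X)` is nuclear. -/
theorem result (X : Type u) [TopologicalSpace X] [T35Space X]
    (E : Type u) [AddCommGroup E] [Module ℝ E] [TopologicalSpace E] [IsTopologicalAddGroup E]
    [ContinuousSMul ℝ E] [LocallyConvexSpace ℝ E] [T2Space E] (δ : X → E) (hδ : IsFreeLCS δ)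
    (hE : MultiHilbert E) : IsNuclearSpace E :=
  Pool.Agent.Q196.FL.nuclear_of_multiHilbert (δ := δ) hδ hE

end Pool.Agent.Results.MP_7eb7a8_an.MultiHilbertIsNuclear
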